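import Mathlib
import Pool.Agent.Results.MP_413b36_nt.FormulaModTwo
import Pool.Agent.Q283.Q3.Bin

/-!
# The 2-part of the strong conjecture for almost all `D` and any sequence of twists of `X_0(49)`

`E_D` is the quadratic twist by `D` of `X_0(49) : y² + x y = x³ - x² - 2 x - 1`. The class: squarefree
positive integers with all prime factors `1` modulo `4`. Let `m_0, m_1, m_2, …` be ANY infinite sequence
of different elements of the class, and let `D` run through ALL elements of the class, ordered by size.
For every `k` let `r_k(D)` be the corank of the explicit matrix over `𝔽₂` of the twist `E_{m_k D}` (quadratic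
symbols between the prime factors, quartic symbols of `-7` on the diagonal).

* `r_k(D) = 0` if and only if `E_{m_k D}(ℚ)` is finite and `Ш(E_{m_k D} / ℚ)[2] = 0`. In this case: the
  equation is minimal, the `L`-function is entire with `L(E_{m_k D}, 1) ≠ 0`, the group
  `Ш(E_{m_k D} / ℚ)[2^∞]` is trivial and the analytic order of `Ш` is a unit at all primes above two: the
  2-part of the strong conjecture holds.
* BINOMIAL LAW, for every set `T` of natural numbers, `p` its measure for the law
  `α_r = κ / ((2 - 1) (4 - 1) ⋯ (2 ^ r - 1))`, `κ = ∏ (1 - 2^{-(2 i + 1)}) = 0.4194…`: for all `n` and `j` the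
  proportion of the `D` for which exactly `j` of the `n` coranks `r_0(D), …, r_{n-1}(D)` are in `T` tends to
  `(n choose j) p^j (1 - p)^(n - j)`.
* LAW OF LARGE NUMBERS, exponential rate: the `D` for which the frequency of `{k < n | r_k(D) ∈ T}` differs
  from `p` by at least `ε` have a relative density, at most `2 exp (- ε² n / 4)`.
* For every `N`, for `100 %` of the `D` the 2-part of the strong conjecture holds, with rank and order of
  vanishing zero, for at least `N` of the curves `E_{m_0 D}, E_{m_1 D}, E_{m_2 D}, …`.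

For a single `m_k` the proportion is `κ`. The laws come from the independence of the coranks of the twists
of one `D` by different `m_k`.
-/

set_option autoImplicit false

open scoped Classical

namespace Pool.Agent.Results.MP_4a9ea6_nt.AlmostAllTwistsTwoPart

open NumberField IsDedekindDomain WeierstrassCurve
open Pool.Agent.Results.MP_413b36_nt.FormulaModTwo

/-- The multipliers: different elements of the class. -/
structure Multipliers (m : ℕ → ℕ) : Prop where
  inj : Function.Injective m
  cls : ∀ k, Class (m k)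

/-- Rank and order of vanishing of `E_N` are zero and the 2-part of the strong conjecture holds: the
equation is minimal at all primes, `E_N(ℚ)` is finite, `Ш(E_N / ℚ)[2^∞] = 0`, the `L`-function has an entire
continuation `Λ` with `Λ(1) ≠ 0`, and the analytic order of `Ш` is a unit at all the primes above two. -/
def TwoPart (N : ℕ) : Prop :=
  (∀ v : HeightOneSpectrum (𝓞 ℚ), MinimalAt (E N) v) ∧ Finite (E N).toAffine.Point ∧
    ShaTwoPrimaryZero N ∧
    ∃ Λ : ℂ → ℂ, Differentiable ℂ Λ ∧ (∀ s : ℂ, 2 < s.re → Λ s = (E N).LSeries s) ∧ Λ 1 ≠ 0 ∧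
      IntegralAtTwo (anOrder N (Λ 1)) ∧ IntegralAtTwo (anOrder N (Λ 1))⁻¹

/-- The proportion of the `D` with the property `P` among the `D ≤ X` of the class. -/
noncomputable def proportion (P : ℕ → Prop) (X : ℕ) : ℝ :=
  (count P X : ℝ) / (count (fun _ => True) X : ℝ)

/-- The number of the `k < n` for which the corank of the twist by `m_k D` is in `T`. -/
noncomputable def number (m : ℕ → ℕ) (T : Set ℕ) (n D : ℕ) : ℕ :=
  ((Finset.range n).filter fun k => corank (tw (m k) D) ∈ T).card

/-- The measure of a set of natural numbers for the law `α`. -/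
noncomputable def measure (T : Set ℕ) : ℝ := ∑' r : T, α r

/-- the class up to `X` -/
noncomputable def SC (X : ℕ) : Finset ℕ := (Finset.Icc 1 X).filter fun D => Class D

theorem count_eq (P : ℕ → Prop) (X : ℕ) : count P X = ((SC X).filter fun D => P D).card := by
  unfold count SC
  rw [Finset.filter_filter]

theorem prop_eq (P : ℕ → Prop) (X : ℕ) :
    proportion P X = (((SC X).filter fun D => P D).card : ℝ) / ((SC X).card : ℝ) := by
  unfold proportion
  rw [count_eq, count_eq]
  congr 2
  exact (Q283.T3.fcc2 _ _).trans (congrArg Finset.card (Finset.filter_true_of_mem fun _ _ => trivial))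

theorem sum_α : HasSum α 1 := result.2.2.2.1

theorem κ_pos : 0 < κ := by
  have := result.2.2.2.2.1
  linarith

theorem α_pos (b : ℕ) : 0 < α b := by
  unfold α
  refine div_pos κ_pos (Finset.prod_pos fun i _ => ?_)
  have : (1 : ℝ) < 2 ^ (i + 1) := one_lt_pow₀ (by norm_num) (Nat.succ_ne_zero i)
  linarith

theorem law0 {m : ℕ → ℕ} (hm : Multipliers m) :
    Q283.Bin.Law SC (fun k D => corank (tw (m k) D)) α := by
  intro M i hi b
  refine (law (fun k => m (i k)) (fun k => hm.cls _) (hm.inj.comp hi) b).congr fun X => ?_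
  exact (prop_eq (fun D => ∀ k, corank (tw (m (i k)) D) = b k) X).trans
    (congrArg (fun n : ℕ => (n : ℝ) / ((SC X).card : ℝ)) (Q283.T3.fcc2 _ _))

theorem ne_SC : ∀ᶠ X : ℕ in Filter.atTop, (SC X).Nonempty := by
  filter_upwards [Filter.eventually_ge_atTop 1] with X hX
  refine ⟨1, Finset.mem_filter.2 ⟨Finset.mem_Icc.2 ⟨le_rfl, hX⟩, squarefree_one, fun p hp h => ?_⟩⟩
  exact absurd (Nat.dvd_one.1 h) hp.one_lt.ne'

theorem meas_one {T : Set ℕ} : 0 ≤ measure T ∧ measure T ≤ 1 := by
  constructor
  · exact tsum_nonneg fun r => (α_pos r).le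
  · unfold measure
    rw [tsum_subtype T α, ← sum_α.tsum_eq]
    refine Summable.tsum_le_tsum (fun r => ?_) (sum_α.summable.indicator T) sum_α.summable
    exact Set.indicator_le_self' (fun _ _ => (α_pos _).le) r

theorem meas_zero : measure {0} = κ := by
  unfold measure
  rw [tsum_subtype ({0} : Set ℕ) α, tsum_eq_single 0]
  · simp [α]
  · intro s hs
    rw [Set.indicator_of_notMem (by simpa using hs)]

theorem two_part {N : ℕ} (hN : Class N) (hG : Good N) : TwoPart N := by
  obtain ⟨h1, -, -, ⟨Λ, h2, h3, h4, h5⟩, -, h6⟩ := result.1 N hN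
  obtain ⟨h7, h8⟩ := h5.2 hG
  exact ⟨h1, hG.1, h6 hG, Λ, h2, h3, h7, h4, h8⟩

theorem tw_cls {m D : ℕ} (hm : Class m) (hD : Class D) : Class (tw m D) :=
  (class_iff _).2 (tw_class ((class_iff _).1 hm) ((class_iff _).1 hD))

theorem result (m : ℕ → ℕ) (hm : Multipliers m) :
    (∀ D : ℕ, Class D → ∀ k, Class (tw (m k) D) ∧
      (corank (tw (m k) D) = 0 ↔ Good (tw (m k) D)) ∧
      (Good (tw (m k) D) → TwoPart (tw (m k) D))) ∧
    (∀ (T : Set ℕ) (n j : ℕ), Filter.Tendsto (proportion fun D => number m T n D = j) Filter.atTop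
      (nhds (n.choose j * measure T ^ j * (1 - measure T) ^ (n - j)))) ∧
    (∀ (T : Set ℕ) (n : ℕ), 0 < n → ∀ ε : ℝ, 0 < ε → ∃ l : ℝ, l ≤ 2 * Real.exp (-(ε ^ 2 * n / 4)) ∧
      Filter.Tendsto (proportion fun D => ε ≤ |(number m T n D : ℝ) / n - measure T|) Filter.atTop
        (nhds l)) ∧
    (∀ N : ℕ, Filter.Tendsto (proportion fun D => ∃ F : Finset ℕ, F.card = N ∧ ∀ k ∈ F,
      TwoPart (tw (m k) D)) Filter.atTop (nhds 1)) ∧
    HasSum α 1 ∧ measure {0} = κ ∧ 0.4194 < κ ∧ κ < 0.4195 := by
  have hres := Pool.Agent.Results.MP_413b36_nt.FormulaModTwo.result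
  have hα0 : ∀ r, 0 ≤ α r := fun r => (α_pos r).le
  have hpat := fun T => Q283.Bin.pat_T sum_α hα0 ne_SC (law0 hm) T
  refine ⟨fun D hD k => ?_, fun T n j => ?_, fun T n hn ε hε => ?_, fun N => ?_, sum_α, meas_zero,
    hres.2.2.2.2⟩
  · have hC := tw_cls (hm.cls k) hD
    exact ⟨hC, (good_iff ((class_iff _).1 hC)).symm, two_part hC⟩
  · refine (Q283.Bin.binom (hpat T) n j).congr fun X => ?_
    rw [prop_eq]
    exact congrArg (fun n : ℕ => (n : ℝ) / ((SC X).card : ℝ)) (Q283.T3.fcc2 _ _)
  · obtain ⟨l, hl, h⟩ := Q283.Bin.lln_exp meas_one.1 meas_one.2 (hpat T) n hn ε hε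
    refine ⟨l, hl, h.congr fun X => ?_⟩
    rw [prop_eq]
    exact congrArg (fun n : ℕ => (n : ℝ) / ((SC X).card : ℝ)) (Q283.T3.fcc2 _ _)
  · have h := Q283.Bin.many_T sum_α hα0 ne_SC (law0 hm) {0}
      (by
        have := meas_zero
        unfold measure at this
        rw [this]
        exact κ_pos) N
    rw [tendsto_order] at h ⊢
    refine ⟨fun b hb => ?_, fun b hb => Filter.Eventually.of_forall fun X => ?_⟩
    · filter_upwards [h.1 b hb] with X hX
      refine hX.trans_le ?_
      rw [prop_eq]
      refine div_le_div_of_nonneg_right ?_ (Nat.cast_nonneg _)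
      rw [Nat.cast_le]
      refine Finset.card_le_card fun D hD => ?_
      rw [Finset.mem_filter] at hD ⊢
      obtain ⟨h1, F, h2, h3⟩ := hD
      have hDC : Class D := (Finset.mem_filter.1 h1).2
      refine ⟨h1, F, h2, fun k hk => ?_⟩
      have hC := tw_cls (hm.cls k) hDC
      exact two_part hC ((good_iff ((class_iff _).1 hC)).2 (h3 k hk))
    · refine lt_of_le_of_lt ?_ hb
      rw [prop_eq]
      exact div_le_one_of_le₀ (Nat.cast_le.2 (Finset.card_filter_le _ _)) (Nat.cast_nonneg _)

end Pool.Agent.Results.MP_4a9ea6_nt.AlmostAllTwistsTwoPart
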