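import Mathlib
import Pool.Agent.Q155.PC.Const

/-!
# All cubic twists by products of given primes: the branching law

`E_D : y² + D y = x³` over `ℚ`, `3`-isogenous to `x³ + y³ = D`. Let `D` be a finite non-empty family
of cube-free numbers prime to `3`, not `±1` modulo `9`, such that exactly one prime `q = 2` modulo `3`
divides each of them. For primes `ℓ_1, …, ℓ_k` (distinct, `= 1` modulo `9`, not dividing the `D_i`)
consider ALL the cubic twists by products of these primes, that is, the curves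
`E_{D_i ℓ_1^{e_1} ⋯ ℓ_k^{e_k}}`, `e_j = 0, 1, 2`. The tuple `(ℓ_1, …, ℓ_k)` belongs to the *tree* of
`D` if every one of these curves satisfies (`Conclusion`): finitely many rational points,
`Ш[3^∞] = 0`, `L(E, 1) ≠ 0` (so rank = order of vanishing = `0`), and the `3`-part of the formula of
Birch and Swinnerton-Dyer. So the empty tuple belongs to the tree if the conclusion holds for the
`E_{D_i}`.

* **Branching law.** If `(ℓ_1, …, ℓ_k)` belongs to the tree, the proportion of the primes `ℓ` for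
  which `(ℓ_1, …, ℓ_k, ℓ)` belongs to the tree (among the primes `ℓ = 1` modulo `9` that do not
  divide the `D_i` and are not among the `ℓ_j`) tends to an explicit constant `c > 0`: the proportion
  of the pairs `(a, b)` of functions with values in the field with three elements, `a` on the primes
  `= 1` modulo `3`, `b` on all primes that divide the twists, such that for every twist `N` and both
  signs the system `∑_r v_r(N) log_p(r) (g_r - g_p) = ± a_p g_p` (`p ∣ N`, `p = 1` modulo `3`),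
  `∑_r v_r(N) b_r g_r = 0` has only the solution `g = 0`.
* If each `D_i` is the power of a prime (`q` or `q²`, `q = 2, 5` modulo `9`), the empty tuple belongs
  to the tree, and the constant is `(2 / 3) ^ m / 9 ^ k`, where `m` is the number of the primes that
  divide the `D_i`.

So the tree of every family of curves that satisfy the conclusion has infinite branches, and at every
vertex a positive proportion of the primes, known exactly, is a continuation.
-/

set_option autoImplicit false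

open scoped Classical

namespace Pool.Agent.Results.MP_4a9ea6_nt.CubicTwistTrees

open Pool.Agent.Y703.CT (WD EQ IsL ThreeUnit tamProd)
open Pool.Agent.TH841.SH.D (Sha)
open Pool.Agent.W97.MT (IsGloballyMinimal)
open Pool.Agent.Y700 (Omega)

/-- `D` is prime to `3` and cube-free, and exactly one prime `q = 2` modulo `3` divides it. -/
def Base (D : ℕ) : Prop :=
  D ≠ 0 ∧ ¬ 3 ∣ D ∧ (∀ p : ℕ, p.Prime → ¬ p ^ 3 ∣ D) ∧
    ∃ q : ℕ, q.Prime ∧ q % 3 = 2 ∧ q ∣ D ∧ ∀ p : ℕ, p.Prime → p ∣ D → p ≠ q → p % 3 = 1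

/-- The conclusion for `E_D : y² + D y = x³` (`WD D`, over `ℚ` it is `EQ (WD D)`): the equation is
globally minimal, `E_D(ℚ)` is finite, `Ш(E_D/ℚ)` has no element of order `3`, and there is an entire
function `f` which is the `L`-series for `Re s > 3/2` (`IsL`), with `f 1 ≠ 0` and
`f 1 = u Ω ∏ c_p / |E_D(ℚ)_tors|²` with a unit `u` at `3`. -/
def Conclusion (D : ℕ) : Prop :=
  IsGloballyMinimal (WD D) ∧
  (Finite (EQ (WD D)).toAffine.Point ∧
    ∀ (n : ℕ) (x : Sha (EQ (WD D))), 3 ^ n • x = 0 → x = 0) ∧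
  ∃ f : ℂ → ℂ, IsL (WD D) f ∧ f 1 ≠ 0 ∧ ∃ u : ℂ,
    f 1 = u * (((Omega (WD D) : ℝ) : ℂ) * (tamProd (WD D) : ℂ) /
      (Nat.card (AddCommGroup.torsion (EQ (WD D)).toAffine.Point) : ℂ) ^ 2) ∧ ThreeUnit u

/-- The number of the primes `ℓ = 1` modulo `3` up to `X` with the property `T`. -/
noncomputable def count (T : ℕ → Prop) (X : ℕ) : ℕ :=
  ((Finset.range (X + 1)).filter fun l => (l.Prime ∧ l % 3 = 1) ∧ T l).card

section
variable {ι : Type} [Fintype ι]

/-- The twists `D_i ℓ_1^{e_1} ⋯ ℓ_k^{e_k}`, `e_j = 0, 1, 2`. -/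
def twist (D : ι → ℕ) {k : ℕ} (l : Fin k → ℕ) (x : ι × (Fin k → ZMod 3)) : ℕ :=
  D x.1 * ∏ j, l j ^ (x.2 j).val

/-- The tuples of the tree of `D`. -/
def Tree (D : ι → ℕ) {k : ℕ} (l : Fin k → ℕ) : Prop :=
  (∀ j, (l j).Prime ∧ l j % 9 = 1 ∧ ∀ i, ¬ l j ∣ D i) ∧ Function.Injective l ∧
    ∀ x, Conclusion (twist D l x)

/-- The allowed new primes. -/
def Allowed (D : ι → ℕ) {k : ℕ} (l : Fin k → ℕ) (m : ℕ) : Prop :=
  m % 9 = 1 ∧ (∀ i, ¬ m ∣ D i) ∧ ∀ j, m ≠ l j

/-- A primitive cube root of unity modulo `p`. -/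
noncomputable def root (p : ℕ) : ZMod p :=
  if h : ∃ g : ZMod p, g ^ 2 + g + 1 = 0 then h.choose else 0

/-- The cubic logarithm modulo a prime `p = 1` modulo `3`: `n ^ ((p - 1) / 3) = root p ^ log p n`. -/
noncomputable def log (p n : ℕ) : ZMod 3 :=
  if h : ∃ c : ZMod 3, (n : ZMod p) ^ ((p - 1) / 3) = root p ^ c.val then h.choose else 0

/-- The linear system of `N`, with `a` on the diagonal and bordered by `b`, has only the solution
zero. -/
def Nonsingular (N : ℕ) (a b : ℕ → ZMod 3) : Prop :=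
  ∀ g : ℕ → ZMod 3,
    (∀ p ∈ N.primeFactors, p % 3 = 1 →
      ∑ r ∈ N.primeFactors, (N.factorization r : ZMod 3) * log p r * (g r - g p) = a p * g p) →
    ∑ r ∈ N.primeFactors, (N.factorization r : ZMod 3) * b r * g r = 0 →
    ∀ p ∈ N.primeFactors, g p = 0

/-- All the prime factors of the members of a family. -/
def primes (N : ι → ℕ) : Finset ℕ := Finset.univ.biUnion fun i => (N i).primeFactors

/-- The prime factors `= 1` modulo `3`. -/
def primes1 (N : ι → ℕ) : Finset ℕ := (primes N).filter fun p => p % 3 = 1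

/-- Extension of a function on a finite set by zero. -/
def ext (S : Finset ℕ) (u : S → ZMod 3) (q : ℕ) : ZMod 3 := if h : q ∈ S then u ⟨q, h⟩ else 0

/-- The proportion of the pairs `(a, b)` for which all the systems of the family, for `(a, b)` and
for `(-a, b)`, are nonsingular. -/
noncomputable def c (N : ι → ℕ) : ℝ :=
  (Nat.card {y : (primes1 N → ZMod 3) × (primes N → ZMod 3) //
    ∀ i, Nonsingular (N i) (ext (primes1 N) y.1) (ext (primes N) y.2) ∧
      Nonsingular (N i) (fun p => - ext (primes1 N) y.1 p) (ext (primes N) y.2)} : ℝ) /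
      3 ^ ((primes1 N).card + (primes N).card)

end

theorem result (ι : Type) [Fintype ι] [Nonempty ι] (D : ι → ℕ) (hD : ∀ i, Base (D i))
    (h9 : ∀ i, D i % 9 ≠ 1 ∧ D i % 9 ≠ 8) :
    (∀ (k : ℕ) (l : Fin k → ℕ), Tree D l →
      Filter.Tendsto (fun X : ℕ => (count (Allowed D l) X : ℝ) / (count (fun _ => True) X : ℝ))
        Filter.atTop (nhds (1 / 3)) ∧
      Filter.Tendsto (fun X : ℕ => (count (fun m => Tree D (Fin.snoc (α := fun _ => ℕ) l m)) X : ℝ) /
        (count (Allowed D l) X : ℝ)) Filter.atTop (nhds (c (twist D l))) ∧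
      0 < c (twist D l)) ∧
    ((∀ i, (D i).primeFactors.card = 1) → Tree D Fin.elim0 ∧
      ∀ (k : ℕ) (l : Fin k → ℕ), Tree D l → c (twist D l) = (2 / 3) ^ (primes D).card / 9 ^ k) := by
  have hC : ∀ i, Pool.Agent.Y703.CT.Cls (D i) := fun i =>
    (Q283.TQ.cls_iff ⟨⟨(hD i).1, (hD i).2.1, (hD i).2.2.1⟩, (hD i).2.2.2⟩).2 (h9 i)
  have hT : ∀ (k : ℕ) (l : Fin k → ℕ), Tree D l ↔ Q155.PC.Lv D l := by
    intro k l
    unfold Tree Q155.PC.Lv
    refine and_congr_right fun _ => and_congr_right fun _ => ?_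
    exact ⟨fun h i e => h (i, e), fun h x => h x.1 x.2⟩
  refine ⟨fun k l hl => ?_, fun h => ⟨?_, fun k l hl => ?_⟩⟩
  · obtain ⟨g1, g2, g3⟩ := Q155.PC.branch hC ((hT k l).1 hl)
    refine ⟨g1, ?_, g3⟩
    simp only [hT]
    exact g2
  · refine ⟨fun j => j.elim0, fun i => i.elim0, fun x => ?_⟩
    have h0 : twist D Fin.elim0 x = D x.1 := by
      unfold twist
      rw [Fin.prod_univ_zero, mul_one]
    rw [h0]
    exact (Q283.TQ.con_iff (hC x.1)).2 (Q155.PC.nosplit_prime (h x.1))
  · exact Q155.PC.c_pp hC h ((hT k l).1 hl)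

end Pool.Agent.Results.MP_4a9ea6_nt.CubicTwistTrees
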