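import Mathlib
import Pool.Agent.Y703.CT.T1d
import Pool.Agent.Y703.CX.Rank
import Pool.Agent.Q283.NJ.G2

/-!
# The 3-part of the strong conjecture for the cubic twists by the divisors of almost every integer

`E_n : y² + n y = x³` over `ℚ` is `3`-isogenous to the cubic twist `x³ + y³ = n`. A number `n` is a BASE if
it is cube-free, prime to `3`, not `±1` modulo `9`, with exactly one prime divisor `2` modulo `3`. For a
positive integer `D` let `D'` be the product of its prime divisors `1` modulo `3`. For a base `N` the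
divisors `d` of `D'²` give `3 ^ ω(D')` twists `E_{N d}` (for `N d` we write its cube-free part, the curve is
the same; it is again a base if `N d` is not `±1` modulo `9`).

* For EVERY base `n` the model of `E_n` is globally minimal, its `L`-function is entire and the quotient
  `u = L(E_n, 1) |E_n(ℚ)_tors|² / (Ω ∏ c_p)` is integral at `3`; it is a unit at `3` if and only if
  `E_n(ℚ)` is finite and `Ш(E_n/ℚ)[3^∞] = 0`. Then order and rank are `0` and the formula has the correct
  `3`-part (`Formula n`).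
* THERE IS ONE SET `S` of positive integers, of NATURAL DENSITY `1` (and also of relative density `1` in the
  thin set of the split numbers, `D = D'`), such that for EVERY finite family `N_1, ..., N_n` of pairwise
  different bases and all `ε > 0` the following holds for all large `D` in `S` and all residue classes
  `a` modulo `9` with no `N_j a` equal to `±1` modulo `9`, `d` running through the divisors `d ≡ a` modulo
  `9` of `D'²` (at least a third of all the divisors, if there is one; `a = 1` always has one):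
  (1) for every subset `A` of the family the share of the `d` for which `Formula` holds exactly for the
      twists `E_{N_j d}` with `j` in `A` is within `ε` of `c ^ |A| (1 - c) ^ (n - |A|)`,
      `c = ∏_{i ≥ 1} (1 - 3^{-i})`, `0.56 < c < 0.5602`;
  (2) the number of the `j` with `Formula (N_j d)` has the binomial law up to `ε`;
  (3) LAW OF LARGE NUMBERS: for every `η > 0` the share of the `d` for which the frequency of the `j` with
      `Formula (N_j d)` differs from `c` by `η` or more is at most `2 exp (- η² n / 4) + ε`. So for all but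
      an arbitrarily small share of the divisors `d` of almost every integer the `3`-part of the strong
      conjecture holds for about `56 %` of the curves `E_{N_j d}` of every long list of bases.
-/

set_option autoImplicit false

open scoped Classical

namespace Pool.Agent.Results.MP_4a9ea6_nt.FormulaOverCubicDivisors

open Filter
open Pool.Agent.Y703.CT (WD IsL ThreeInt ThreeUnit Triv3 tors tamProd Cls Base)
open Pool.Agent.W97.MT (IsGloballyMinimal)
open Pool.Agent.Y700 (Omega)

/-- The base numbers: cube-free, prime to `3`, not `±1` modulo `9`, exactly one prime divisor is `2`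
modulo `3`. -/
def IsBase (N : ℕ) : Prop :=
  N ≠ 0 ∧ ¬ 3 ∣ N ∧ (∀ p : ℕ, p.Prime → ¬ p ^ 3 ∣ N) ∧ N % 9 ≠ 1 ∧ N % 9 ≠ 8 ∧
    ∃ q : ℕ, q.Prime ∧ q % 3 = 2 ∧ q ∣ N ∧ ∀ p : ℕ, p.Prime → p ∣ N → p ≠ q → p % 3 = 1

/-- The split numbers: squarefree, all prime divisors are `1` modulo `3`. -/
def Split (D : ℕ) : Prop := Squarefree D ∧ ∀ p : ℕ, p.Prime → p ∣ D → p % 3 = 1

/-- The product of the prime divisors `1` modulo `3` of `D`. -/
def splitPart (D : ℕ) : ℕ := ∏ p ∈ D.primeFactors.filter (fun p => p % 3 = 1), p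

/-- The cube-free part of `n`. -/
def cubeFree (n : ℕ) : ℕ := ∏ p ∈ n.primeFactors, p ^ (n.factorization p % 3)

/-- The divisors in the residue class `a` modulo `9` of the square of the split part of `D`. -/
def divs (a D : ℕ) : Finset ℕ := (splitPart D ^ 2).divisors.filter fun d => d % 9 = a

/-- The `3`-part of the formula for `E_n`: the model `y² + n y = x³` is globally minimal, the `L`-function
is entire, `u = L(E_n, 1) |E(ℚ)_tors|² / (Ω ∏ c_p)` is integral at the places above `3`, and it is a unit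
there iff `E_n(ℚ)` is finite and `Ш(E_n / ℚ)[3^∞] = 0`. -/
def ThreePart (n : ℕ) : Prop := IsGloballyMinimal (WD n) ∧
  ∃ f : ℂ → ℂ, IsL (WD n) f ∧ ∃ u : ℂ,
    f 1 = u * (((Omega (WD n) : ℝ) : ℂ) * (tamProd (WD n) : ℂ) / (tors n : ℂ) ^ 2) ∧
    ThreeInt u ∧ (ThreeUnit u ↔ Triv3 n)

/-- The strong conjecture up to numbers prime to `3`, in order and rank `0`: `E_n(ℚ)` is finite,
`Ш(E_n / ℚ)[3^∞] = 0`, the `L`-function is entire with `L(E_n, 1) ≠ 0`, and
`L(E_n, 1) = u Ω ∏ c_p / |E(ℚ)_tors|²` with `u` a unit at the places above `3`. -/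
def Formula (n : ℕ) : Prop := IsGloballyMinimal (WD n) ∧ Triv3 n ∧
  ∃ f : ℂ → ℂ, IsL (WD n) f ∧ f 1 ≠ 0 ∧ ∃ u : ℂ,
    f 1 = u * (((Omega (WD n) : ℝ) : ℂ) * (tamProd (WD n) : ℂ) / (tors n : ℂ) ^ 2) ∧ ThreeUnit u

/-- The share of the `d` in `divs a D` for which the vector of the cube-free parts of the `N_j d` has the
property `P`. -/
noncomputable def share {n : ℕ} (N : Fin n → ℕ) (a D : ℕ) (P : (Fin n → ℕ) → Prop) : ℝ :=
  (((divs a D).filter fun d => P fun j => cubeFree (N j * d)).card : ℝ) / (divs a D).card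

/-- the number of the `D ≤ X` with the property `P` -/
noncomputable def count (P : ℕ → Prop) (X : ℕ) : ℕ := ((Finset.Icc 1 X).filter P).card

/-- the number of the `j` with `Formula (v j)` -/
noncomputable def number {n : ℕ} (v : Fin n → ℕ) : ℕ := (Finset.univ.filter fun j => Formula (v j)).card

/-- `c = ∏_{i ≥ 1} (1 - 3^{-i})` -/
noncomputable def c : ℝ := ∏' i : ℕ, (1 - (1 / 3 : ℝ) ^ (i + 1))

section proof

open Q283.Q3B Q283.Q3N Q283.ND Q283.NJ
open Q283.Q3 (cq cq_eq cq_ge sum_cq cq_zero)

theorem base_iff (N : ℕ) : IsBase N ↔ Cls N := by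
  unfold IsBase Cls Base
  tauto

theorem formula_iff {n : ℕ} (hC : Cls n) : Formula n ↔ Triv3 n := by
  constructor
  · exact fun h => h.2.1
  · intro h
    obtain ⟨h1, f, h2, u, h3, h4, h5, -⟩ := Pool.Agent.Y703.CT.fin_all hC
    have hu := h5.2 h
    exact ⟨h1, h, f, h2, Pool.Agent.Y703.CX.val_ne hC h.1 hu.1 h3, u, h3, hu⟩

theorem rr_triv {n : ℕ} (hC : Cls n) : rr n = 0 ↔ Triv3 n := by
  have : IsCyclotomicExtension {3} ℚ (CyclotomicField 3 ℚ) :=
    CyclotomicField.isCyclotomicExtension 3 ℚ
  obtain ⟨⟨j, -⟩, -⟩ := Pool.Agent.Y455.CTK.jex (CyclotomicField 3 ℚ)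
  exact (sel_N (CyclotomicField 3 ℚ) j hC).2.2

/-- the cube-free part of `N d` is a base -/
theorem cls_of {N a D d : ℕ} (hN : Cls N) (h1 : N * a % 9 ≠ 1)
    (h8 : N * a % 9 ≠ 8) (hd : d ∈ divs a D) : Cls (cubeFree (N * d)) := by
  obtain ⟨hd1, hd2⟩ := (mem_Dk (k := a) (sp_sqf D)).1 hd
  have ha : a < 9 := by
    rw [← hd2]
    exact Nat.mod_lt _ (by norm_num)
  have h9 : N * d % 9 = N * a % 9 := by
    rw [Nat.mul_mod, hd2]
    conv_rhs => rw [Nat.mul_mod, Nat.mod_eq_of_lt ha]
  exact cls_cf hN (sp_ac D) hd1 (by rw [h9]; exact h1) (by rw [h9]; exact h8)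

/-- the shares -/
theorem share_eq {M : ℕ} {N : Fin M → ℕ} {a D : ℕ} {P Q : (Fin M → ℕ) → Prop}
    (h : ∀ d ∈ divs a D, P (fun j => cubeFree (N j * d)) ↔
    Q (fun j => rr (cubeFree (N j * d)))) : share N a D P =
      (((Dk a (sp D)).filter fun d => (fun j => rr (cf (N j * d))) ∈ {r | Q r}).card : ℝ) /
        (Dk a (sp D)).card := by
  unfold share
  congr 2
  exact Pool.Agent.XLK.fcc fun d hd => h d hd

end proof

open Q283.Q3B Q283.Q3N Q283.ND Q283.NJ in
open Q283.Q3 (cq cq_eq cq_ge sum_cq cq_zero) in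
theorem result :
    (∀ n : ℕ, IsBase n → ThreePart n ∧ (Formula n ↔ Triv3 n)) ∧
    (∀ N D d : ℕ, IsBase N → d ∣ splitPart D ^ 2 → N * d % 9 ≠ 1 → N * d % 9 ≠ 8 →
      IsBase (cubeFree (N * d)) ∧ ∃ b : ℕ, N * d = cubeFree (N * d) * b ^ 3) ∧
    (∀ a D : ℕ, (divs 1 D).Nonempty ∧
      ((divs a D).Nonempty → 3 ^ (splitPart D).primeFactors.card ≤ 3 * (divs a D).card)) ∧
    (∀ D : ℕ, Split (splitPart D) ∧ (Split D → splitPart D = D)) ∧
    (∃ S : ℕ → Prop, Tendsto (fun X : ℕ => (count S X : ℝ) / X) atTop (nhds 1) ∧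
      Tendsto (fun X : ℕ => (count (fun D => Split D ∧ S D) X : ℝ) / count Split X) atTop (nhds 1) ∧
      ∀ (n : ℕ) (N : Fin n → ℕ), (∀ j, IsBase (N j)) → Function.Injective N → ∀ ε : ℝ, 0 < ε →
      ∃ D₀ : ℕ, ∀ D : ℕ, D₀ ≤ D → S D →
        ∀ a : ℕ, (∀ j, N j * a % 9 ≠ 1 ∧ N j * a % 9 ≠ 8) → (divs a D).Nonempty →
          (∀ A : Finset (Fin n), |share N a D (fun v => ∀ j, (Formula (v j) ↔ j ∈ A)) -
            c ^ A.card * (1 - c) ^ (n - A.card)| ≤ ε) ∧
          (∀ i : ℕ, |share N a D (fun v => number v = i) -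
            n.choose i * c ^ i * (1 - c) ^ (n - i)| ≤ ε) ∧
          (0 < n → ∀ η : ℝ, 0 < η → share N a D (fun v => η ≤ |(number v : ℝ) / n - c|) ≤
            2 * Real.exp (-(η ^ 2 * n / 4)) + ε)) ∧
    0.56 < c ∧ c < 0.5602 := by
  have hc3 : c = Pool.Agent.Y703.CX.c3 := rfl
  have hc1 : 0.56 < c ∧ c < 0.5602 := by
    rw [hc3]
    exact ⟨Q283.ND.c3_lt.2, Q283.ND.c3_lt.1⟩
  refine ⟨fun n hn => ?_, fun N D d hN hd h1 h8 => ⟨?_, ?_⟩, fun a D => ⟨one_mem (sp_ac D),
    fun h => Dk_card (sp_ac D) h⟩, fun D => ⟨sp_ac D, fun h => sp_split h⟩, ?_, hc1⟩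
  · have hC := (base_iff n).1 hn
    refine ⟨?_, formula_iff hC⟩
    obtain ⟨h1, f, h2, u, h3, h4, h5, -⟩ := Pool.Agent.Y703.CT.fin_all hC
    exact ⟨h1, f, h2, u, h3, h4, h5⟩
  · exact (base_iff _).2 (cls_cf ((base_iff N).1 hN) (sp_ac D) hd h1 h8)
  · have hd0 : d ≠ 0 := by
      rintro rfl
      exact pow_ne_zero 2 (sp_sqf D).ne_zero (zero_dvd_iff.1 hd)
    exact ⟨_, cf_mul (mul_ne_zero hN.1 hd0)⟩
  · obtain ⟨S, hS, hS', hJ, -⟩ := Q283.NJ.mainB
    refine ⟨S, ?_, Q155.NL.tendsto_of_alm (C := Dc) ⟨1, le_rfl, squarefree_one, fun p hp hd =>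
      absurd (Nat.dvd_one.1 hd) hp.one_lt.ne'⟩ hS', fun n N hN hinj ε hε => ?_⟩
    · have h1 := Q155.NL.tendsto_of_alm (C := fun _ => True) ⟨1, le_rfl, trivial⟩ hS
      refine h1.congr fun X => ?_
      have h2 : Q155.NL.cnt (fun _ => True) X = X := by
        have h0 : Q155.NL.cs (fun _ => True) X = Finset.Icc 1 X := by
          ext D
          rw [Q155.NL.mem_cs, Finset.mem_Icc]
          exact ⟨fun h => h.1, fun h => ⟨h, trivial⟩⟩
        unfold Q155.NL.cnt
        rw [h0, Nat.card_Icc]
        omega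
      rw [h2]
      congr 2
      unfold Q155.NL.cnt Q155.NL.cs count
      congr 1
      ext D
      simp
    · have hC : ∀ j, Cls (N j) := fun j => (base_iff (N j)).1 (hN j)
      obtain ⟨e₁, he₁⟩ : ∃ e₁ : ℝ, e₁ = ε / 2 ^ n := ⟨_, rfl⟩
      have he0 : 0 < e₁ := by rw [he₁]; positivity
      have hee : 2 ^ n * e₁ = ε := by
        rw [he₁]
        field_simp
      have hea : e₁ ≤ ε := by
        rw [← hee]
        exact le_mul_of_one_le_left he0.le (one_le_pow₀ (by norm_num))
      obtain ⟨D₀, hD₀⟩ := eventually_atTop.1 (hJ n N hC hinj e₁ he0)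
      refine ⟨D₀, fun D hD hSD a ha hne => ?_⟩
      have hJa := hD₀ D hD hSD a (fun j => (ha j).1) (fun j => (ha j).2)
      have hpos : 0 < (Dk a (sp D)).card := Finset.card_pos.2 hne
      have hpos' : (0 : ℝ) < (Dk a (sp D)).card := by exact_mod_cast hpos
      have hcl : ∀ d ∈ divs a D, ∀ j, Cls (cubeFree (N j * d)) :=
        fun d hd j => cls_of (hC j) (ha j).1 (ha j).2 hd
      have hA : ∀ A : Finset (Fin n), |share N a D (fun v => ∀ j, (Formula (v j) ↔ j ∈ A)) -
            c ^ A.card * (1 - c) ^ (n - A.card)| ≤ e₁ := by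
        intro A
        rw [share_eq (Q := fun r => ∀ k, (r k = 0 ↔ k ∈ A)) fun d hd =>
          forall_congr' fun i => by rw [formula_iff (hcl d hd i), ← rr_triv (hcl d hd i)]]
        have h2 := div_abs hpos' (hJa {r | ∀ k, (r k = 0 ↔ k ∈ A)})
        have h3 : msJ {r : Fin n → ℕ | ∀ k, (r k = 0 ↔ k ∈ A)} =
            c ^ A.card * (1 - c) ^ (n - A.card) := by
          have h4 := Q283.Q3A.meas_A A
          rw [cq_zero, ← hc3] at h4
          exact h4
        rw [h3] at h2
        exact h2
      have hpat : ∀ J : ℕ → Prop, |share N a D (fun v => J (number v)) -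
          ∑ A : Finset (Fin n), (if J A.card then wt c A else 0)| ≤ ε := by
        intro J
        have hA' : ∀ A : Finset (Fin n), |(((divs a D).filter fun d =>
            ∀ k, (Formula (cubeFree (N k * d)) ↔ k ∈ A)).card : ℝ) / (divs a D).card - wt c A| ≤
              e₁ := by
          intro A
          have h2 := hA A
          unfold share at h2
          have h3 : ((divs a D).filter fun d => ∀ k, (Formula (cubeFree (N k * d)) ↔ k ∈ A)).card =
              ((divs a D).filter fun d => (fun v : Fin n → ℕ => ∀ j, (Formula (v j) ↔ j ∈ A))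
                (fun j => cubeFree (N j * d))).card :=
            Pool.Agent.XLK.fcc fun d _ => Iff.rfl
          rw [h3]
          unfold wt
          convert h2
        have h2 := pat_fin (divs a D) n (fun j d => Formula (cubeFree (N j * d))) (p := c) hA' J
        rw [hee] at h2
        have h3 : share N a D (fun v => J (number v)) = (((divs a D).filter fun d =>
            J (Finset.univ.filter fun k => Formula (cubeFree (N k * d))).card).card : ℝ) /
              (divs a D).card := by
          unfold share number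
          congr 2
        rw [h3]
        exact h2
      refine ⟨fun A => (hA A).trans hea, fun i => ?_, fun hn η hη => ?_⟩
      · have h2 := hpat fun m => m = i
        have h3 : ∑ A : Finset (Fin n), (if A.card = i then wt c A else 0) =
            n.choose i * c ^ i * (1 - c) ^ (n - i) := wt_binom c n i
        have h4 : ∑ A : Finset (Fin n), (@ite ℝ ((fun m => m = i) A.card)
            (Classical.propDecidable _) (wt c A) 0) =
            ∑ A : Finset (Fin n), (if A.card = i then wt c A else 0) := by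
          refine Finset.sum_congr rfl fun A _ => ?_
          beta_reduce
          split_ifs <;> rfl
        rw [h4, h3] at h2
        exact h2
      · have h2 := (abs_le.1 (hpat fun m => η ≤ |(m : ℝ) / n - c|)).2
        have h3 := wt_tail (p := c) (by linarith [hc1.1]) (by linarith [hc1.2]) hn hη
        linarith

end Pool.Agent.Results.MP_4a9ea6_nt.FormulaOverCubicDivisors
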