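import Mathlib
import Pool.Agent.Q283.TQ.Elem

/-!
# The rank part and the 3-part of the conjecture for the prime cubic twists of any cubic twists

`E_D : y² + D y = x³`, `3`-isogenous to `x³ + y³ = D`. Let `D_1, …, D_n` be ANY cube-free numbers
prime to `3` such that exactly one prime `q = 2` modulo `3` divides each of them (with any number of
primes `= 1` modulo `3`); there is no condition on the ranks, on the Tate-Shafarevich groups or on the
`L`-series of the `E_{D_i}`. A prime `ℓ = 1` modulo `3` is *allowed* if it does not divide the `D_i`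
and no `D_i ℓ` is `±1` modulo `9`.

* The allowed primes have density `a / 3` among the primes `ℓ = 1` modulo `3`, where `a` is the
  number of the classes `r = 1, 4, 7` with `D_i r ≠ ±1` modulo `9` for all `i`.
* If `a > 0`, the proportion of the allowed primes `ℓ` for which all the curves `E_{D_i ℓ}` satisfy:
  `E(ℚ)` is finite, `L(E, 1) ≠ 0` (so order of vanishing = rank = 0), `Ш(E/ℚ)[3^∞] = 0`, and
  `L(E, 1)` is `Ω ∏ c_p / |E(ℚ)_tors|²` up to a unit at `3` (the `3`-part of the formula),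
  tends to the explicit constant `c(D_1, …, D_n)`: the proportion of the pairs `(a, b)` of functions
  with values in the field with three elements, `a` on the primes `= 1` modulo `3` that divide the
  `D_i`, `b` on all primes that divide the `D_i`, such that for every `i` the system
  `∑_r v_r(D_i) log_p(r) (g_r - g_p) = a_p g_p` (`p ∣ D_i`, `p = 1` modulo `3`),
  `∑_r v_r(D_i) b_r g_r = 0` has only the solution `g = 0`; here `log_p` is the cubic logarithm
  modulo `p`.
* `c(D_1, …, D_n) > 0` if no prime `= 1` modulo `3` divides three of the `D_i`; for `n ≤ 2` both `a`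
  and `c` are positive.

The criterion for one `D` and the `3`-adic valuation of the value are from the starting library
(`Pool.Agent.Results.MP_4a9ea6_nt.ThreePartCubicTwists`), Chebotarev's density theorem is the
one of `Pool/Agent/W401/Cheb`. New here (helper283): `Pool/Agent/Q283/TQ` and `Pool/Agent/Q283/TC`.
-/

set_option autoImplicit false

open scoped Classical

namespace Pool.Agent.Results.MP_4a9ea6_nt.PrimeCubicTwists

open Pool.Agent.Y703.CT (WD EQ IsL ThreeUnit tamProd)
open Pool.Agent.TH841.SH.D (Sha)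
open Pool.Agent.W97.MT (IsGloballyMinimal)
open Pool.Agent.Y700 (Omega)

/-- `D` is prime to `3` and cube-free, and exactly one prime `q = 2` modulo `3` divides it. -/
def Base (D : ℕ) : Prop :=
  D ≠ 0 ∧ ¬ 3 ∣ D ∧ (∀ p : ℕ, p.Prime → ¬ p ^ 3 ∣ D) ∧
    ∃ q : ℕ, q.Prime ∧ q % 3 = 2 ∧ q ∣ D ∧ ∀ p : ℕ, p.Prime → p ∣ D → p ≠ q → p % 3 = 1

/-- The conclusion for `E_D : y² + D y = x³` (`WD D`, over `ℚ` it is `EQ (WD D)`): the equation is
globally minimal, `E_D(ℚ)` is finite, `Ш(E_D/ℚ)` has no element of order `3`, and there is an entire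
function `f` which is the `L`-series for `Re s > 3/2` (`IsL`), with `f 1 ≠ 0` and
`f 1 = u Ω ∏ c_p / |E_D(ℚ)_tors|²` with a unit `u` at `3`. -/
def Conclusion (D : ℕ) : Prop :=
  IsGloballyMinimal (WD D) ∧
  (Finite (EQ (WD D)).toAffine.Point ∧
    ∀ (n : ℕ) (x : Sha (EQ (WD D))), 3 ^ n • x = 0 → x = 0) ∧
  ∃ f : ℂ → ℂ, IsL (WD D) f ∧ f 1 ≠ 0 ∧ ∃ u : ℂ,
    f 1 = u * (((Omega (WD D) : ℝ) : ℂ) * (tamProd (WD D) : ℂ) /
      (Nat.card (AddCommGroup.torsion (EQ (WD D)).toAffine.Point) : ℂ) ^ 2) ∧ ThreeUnit u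

/-- The number of the primes `ℓ = 1` modulo `3` up to `X` with the property `T`. -/
noncomputable def count (T : ℕ → Prop) (X : ℕ) : ℕ :=
  ((Finset.range (X + 1)).filter fun l => (l.Prime ∧ l % 3 = 1) ∧ T l).card

/-- The allowed primes. -/
def Allowed {n : ℕ} (D : Fin n → ℕ) (l : ℕ) : Prop :=
  ∀ i, ¬ l ∣ D i ∧ (D i * l) % 9 ≠ 1 ∧ (D i * l) % 9 ≠ 8

/-- The allowed primes for which the conclusion holds for all the `D_i ℓ`. -/
def Good {n : ℕ} (D : Fin n → ℕ) (l : ℕ) : Prop :=
  ∀ i, ¬ l ∣ D i ∧ (D i * l) % 9 ≠ 1 ∧ (D i * l) % 9 ≠ 8 ∧ Conclusion (D i * l)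

/-- The number of the classes `r = 1, 4, 7` with `D_i r ≠ ±1` modulo `9` for all `i`. -/
def classes {n : ℕ} (D : Fin n → ℕ) : ℕ :=
  (({1, 4, 7} : Finset ℕ).filter fun r => ∀ i, (D i * r) % 9 ≠ 1 ∧ (D i * r) % 9 ≠ 8).card

/-- A primitive cube root of unity modulo `p`. -/
noncomputable def root (p : ℕ) : ZMod p :=
  if h : ∃ g : ZMod p, g ^ 2 + g + 1 = 0 then h.choose else 0

/-- The cubic logarithm modulo a prime `p = 1` modulo `3`: `n ^ ((p - 1) / 3) = root p ^ log p n`. -/
noncomputable def log (p n : ℕ) : ZMod 3 :=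
  if h : ∃ c : ZMod 3, (n : ZMod p) ^ ((p - 1) / 3) = root p ^ c.val then h.choose else 0

/-- The linear system of `D`, with `a` on the diagonal and bordered by `b`, has only the solution
zero. -/
def Nonsingular (D : ℕ) (a b : ℕ → ZMod 3) : Prop :=
  ∀ g : ℕ → ZMod 3,
    (∀ p ∈ D.primeFactors, p % 3 = 1 →
      ∑ r ∈ D.primeFactors, (D.factorization r : ZMod 3) * log p r * (g r - g p) = a p * g p) →
    ∑ r ∈ D.primeFactors, (D.factorization r : ZMod 3) * b r * g r = 0 →
    ∀ p ∈ D.primeFactors, g p = 0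

/-- All the prime factors of the `D_i`. -/
def primes {n : ℕ} (D : Fin n → ℕ) : Finset ℕ := Finset.univ.biUnion fun i => (D i).primeFactors

/-- The prime factors `= 1` modulo `3` of the `D_i`. -/
def primes1 {n : ℕ} (D : Fin n → ℕ) : Finset ℕ := (primes D).filter fun p => p % 3 = 1

/-- Extension of a function on a finite set by zero. -/
def ext (S : Finset ℕ) (u : S → ZMod 3) (q : ℕ) : ZMod 3 := if h : q ∈ S then u ⟨q, h⟩ else 0

/-- The proportion of the pairs `(a, b)` for which all the systems are nonsingular. -/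
noncomputable def c {n : ℕ} (D : Fin n → ℕ) : ℝ :=
  (Nat.card {y : (primes1 D → ZMod 3) × (primes D → ZMod 3) //
    ∀ i, Nonsingular (D i) (ext (primes1 D) y.1) (ext (primes D) y.2)} : ℝ) /
      3 ^ ((primes1 D).card + (primes D).card)

theorem base_iff {D : ℕ} (h : Base D) : Q283.TQ.Bs D := ⟨⟨h.1, h.2.1, h.2.2.1⟩, h.2.2.2⟩

theorem result (n : ℕ) (D : Fin n → ℕ) (hD : ∀ i, Base (D i)) :
    Filter.Tendsto (fun X : ℕ => (count (Allowed D) X : ℝ) / (count (fun _ => True) X : ℝ))
      Filter.atTop (nhds ((classes D : ℝ) / 3)) ∧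
    (0 < classes D →
      Filter.Tendsto (fun X : ℕ => (count (Good D) X : ℝ) / (count (Allowed D) X : ℝ))
        Filter.atTop (nhds (c D))) ∧
    ((∀ p : ℕ, p % 3 = 1 → (Finset.univ.filter fun i => p.Prime ∧ p ∣ D i).card ≤ 2) →
      0 < c D) ∧
    (n ≤ 2 → 0 < classes D ∧ 0 < c D) := by
  have hB : ∀ i, Q283.TQ.Bs (D i) := fun i => base_iff (hD i)
  obtain ⟨h1, h2, h3⟩ := Q283.TQ.main_Q D hB
  have hc : Q283.TQ.cQ D = c D := (Q283.TQ.cEl_eq D).symm
  have hn : Nat.card {e // Q283.TQ.okQ D e} = classes D := Q283.TQ.clsN_eq D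
  have hg : ∀ X : ℕ, Q283.TQ.CN (Q283.TQ.GoodQ D) X = count (Good D) X := by
    intro X
    unfold Q283.TQ.CN count
    congr 1
    refine Finset.filter_congr fun l _ => ?_
    refine and_congr_right fun hl => ?_
    exact Q283.TQ.good_iff D hB hl.1 hl.2
  rw [hn] at h1 h2
  rw [hc] at h2 h3
  have h4 : (∀ p : ℕ, p % 3 = 1 → (Finset.univ.filter fun i => p.Prime ∧ p ∣ D i).card ≤ 2) →
      0 < c D := by
    intro h
    refine h3 fun p hp => ?_
    refine le_trans (le_of_eq ?_) (h p hp)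
    congr 1
    refine Finset.filter_congr fun i _ => ?_
    rw [Nat.mem_primeFactors]
    exact ⟨fun h => ⟨h.1, h.2.1⟩, fun h => ⟨h.1, h.2, (hD i).1⟩⟩
  refine ⟨h1, fun h => ?_, h4, fun h => ⟨Q283.TQ.clsN_pos D h, h4 fun p _ => ?_⟩⟩
  · have h5 := h2 h
    simp only [hg] at h5
    exact h5
  · refine (Finset.card_le_univ _).trans ?_
    rw [Fintype.card_fin]
    exact h

end Pool.Agent.Results.MP_4a9ea6_nt.PrimeCubicTwists
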